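import Pool.Agent.H13.EV.Defs

/-!
# MP_6b5a9a_nt, module MOV: from even to odd degree
-/

open Polynomial

namespace Pool.Agent.H85.EV.MOV

open Pool.Agent.H13.EV

universe u

lemma ev_reflect {k : Type u} [Field k] {p : k[X]} {N : ℕ} (h : p.natDegree ≤ N) {θ : k}
    (hθ : θ ≠ 0) : (p.reflect N).eval θ = θ ^ N * p.eval θ⁻¹ := by
  haveI : Invertible θ⁻¹ := invertibleOfNonzero (inv_ne_zero hθ)
  have h1 := eval₂_reflect_mul_pow (RingHom.id k) θ⁻¹ N p h
  rw [invOf_eq_inv, inv_inv] at h1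
  have h2 : eval₂ (RingHom.id k) θ (reflect N p) = (reflect N p).eval θ := rfl
  have h3 : eval₂ (RingHom.id k) θ⁻¹ p = p.eval θ⁻¹ := rfl
  rw [h2, h3, inv_pow] at h1
  rw [← h1]
  field_simp

lemma natDegree_sub {k : Type u} [Field k] (p : k[X]) (α κ : k) :
    (p.comp (C α + C κ * X)).natDegree ≤ p.natDegree := by
  refine natDegree_comp_le.trans ?_
  have h : (C α + C κ * X : k[X]).natDegree ≤ 1 := by compute_degree
  calc p.natDegree * (C α + C κ * X : k[X]).natDegree ≤ p.natDegree * 1 :=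
        Nat.mul_le_mul_left _ h
    _ = p.natDegree := mul_one _

lemma ev_sub {k : Type u} [Field k] (p : k[X]) (α κ θ : k) :
    (p.comp (C α + C κ * X)).eval θ⁻¹ = p.eval (α + κ / θ) := by
  rw [eval_comp]
  simp [div_eq_mul_inv]

lemma poly_eq {k : Type u} [Field k] [Infinite k] {p q : k[X]}
    (h : ∀ θ, θ ≠ 0 → p.eval θ = q.eval θ) : p = q := by
  have h1 : X * p = X * q := by
    refine Polynomial.funext fun θ => ?_
    rw [eval_mul, eval_mul, eval_X]
    by_cases hθ : θ = 0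
    · rw [hθ, zero_mul, zero_mul]
    · rw [h θ hθ]
  exact mul_left_cancel₀ X_ne_zero h1

theorem X : T_MOV.{u} := by
  intro k _ _ g m M' f f2 α κ ι _ x a b c hκ hf hf2 hx hc hab hm ha hb hcop
  have : Infinite k := IsAlgClosed.instInfinite
  -- evaluation of the data
  have ef : ∀ θ, θ ≠ 0 → κ ^ 2 * f2.eval θ = θ ^ (2 * g + 2) * f.eval (α + κ / θ) := by
    intro θ hθ
    have h1 := congrArg (Polynomial.eval θ) hf2
    rw [ev_reflect ((natDegree_sub f α κ).trans hf) hθ, ev_sub, eval_mul, eval_C] at h1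
    exact h1.symm
  set a1 : k[X] := (a.comp (C α + C κ * Polynomial.X)).reflect m with ha1
  set b1 : k[X] := C κ * (b.comp (C α + C κ * Polynomial.X)).reflect (m - (g + 1)) with hb1
  have ea : ∀ θ, θ ≠ 0 → a1.eval θ = θ ^ m * a.eval (α + κ / θ) := fun θ hθ => by
    rw [ha1, ev_reflect ((natDegree_sub a α κ).trans ha) hθ, ev_sub]
  have eb : ∀ θ, θ ≠ 0 → b1.eval θ * θ ^ (g + 1) = κ * θ ^ m * b.eval (α + κ / θ) := by
    intro θ hθ
    rcases hb with hb | hb
    · have : b1 = 0 := by rw [hb1, hb, zero_comp, reflect_zero, mul_zero]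
      rw [this, hb]
      simp
    · rw [hb1, eval_mul, eval_C, ev_reflect ((natDegree_sub b α κ).trans (by omega)) hθ, ev_sub]
      have : θ ^ m = θ ^ (m - (g + 1)) * θ ^ (g + 1) := by
        rw [← pow_add]
        congr 1
        omega
      rw [this]
      ring
  have hxi : ∀ i, x i - α ≠ 0 := fun i => sub_ne_zero.2 (hx i)
  set c1 : k := c * (∏ i, (α - x i)) ^ M' with hc1
  have hc1' : c1 ≠ 0 := mul_ne_zero hc (pow_ne_zero _ (Finset.prod_ne_zero_iff.2 fun i _ =>
    sub_ne_zero.2 (hx i).symm))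
  have hmain : a1 ^ 2 - f2 * b1 ^ 2 = C c1 * (∏ i, (Polynomial.X - C (κ / (x i - α)))) ^ M' := by
    refine poly_eq fun θ hθ => ?_
    have h1 := congrArg (Polynomial.eval (α + κ / θ)) hab
    simp only [eval_sub, eval_mul, eval_pow, eval_C, eval_prod, eval_X] at h1 ⊢
    have h2 : f2.eval θ * b1.eval θ ^ 2 = θ ^ (2 * m) * (f.eval (α + κ / θ) *
        b.eval (α + κ / θ) ^ 2) := by
      have h3 : (κ ^ 2 * θ ^ (2 * g + 2)) ≠ 0 :=
        mul_ne_zero (pow_ne_zero _ hκ) (pow_ne_zero _ hθ)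
      refine mul_left_cancel₀ h3 ?_
      calc κ ^ 2 * θ ^ (2 * g + 2) * (f2.eval θ * b1.eval θ ^ 2)
          = (κ ^ 2 * f2.eval θ) * (b1.eval θ * θ ^ (g + 1)) ^ 2 := by ring
        _ = _ := by rw [ef θ hθ, eb θ hθ]; ring
    rw [h2, ea θ hθ, mul_pow, ← pow_mul, mul_comm m 2, ← mul_sub, h1, hm, hc1]
    have h4 : θ ^ (M' * Fintype.card ι) = (∏ _i : ι, θ) ^ M' := by
      rw [Finset.prod_const, Finset.card_univ, ← pow_mul, mul_comm]
    rw [h4, mul_left_comm, ← mul_pow, ← Finset.prod_mul_distrib, mul_assoc, ← mul_pow,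
      ← Finset.prod_mul_distrib]
    congr 2
    refine Finset.prod_congr rfl fun i _ => ?_
    have := hxi i
    field_simp
    ring
  refine ⟨a1, b1, c1, hc1', hmain, ?_, ?_⟩
  · rw [Polynomial.isCoprime_iff_aeval_ne_zero_of_isAlgClosed k k]
    intro θ
    rw [coe_aeval_eq_eval]
    by_contra hno
    push Not at hno
    obtain ⟨h1, h2⟩ := hno
    by_cases hθ : θ = 0
    · subst hθ
      have h3 := congrArg (Polynomial.eval 0) hmain
      simp only [eval_sub, eval_mul, eval_pow, eval_C, eval_prod, eval_X, h1, h2] at h3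
      have h4 : c1 * (∏ i, (0 - κ / (x i - α))) ^ M' ≠ 0 := by
        refine mul_ne_zero hc1' (pow_ne_zero _ (Finset.prod_ne_zero_iff.2 fun i _ => ?_))
        rw [zero_sub]
        exact neg_ne_zero.2 (div_ne_zero hκ (hxi i))
      apply h4
      rw [← h3]
      ring
    · have h3 := ea θ hθ
      have h4 := eb θ hθ
      rw [h1] at h3
      rw [h2, zero_mul] at h4
      have h5 : a.eval (α + κ / θ) = 0 :=
        (mul_eq_zero.1 h3.symm).resolve_left (pow_ne_zero _ hθ)
      have h6 : b.eval (α + κ / θ) = 0 :=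
        (mul_eq_zero.1 h4.symm).resolve_left (mul_ne_zero hκ (pow_ne_zero _ hθ))
      obtain ⟨s, t, hst⟩ := hcop
      have h7 := congrArg (Polynomial.eval (α + κ / θ)) hst
      simp [h5, h6] at h7
  · intro i y hy
    set θ := κ / (x i - α) with hθdef
    have hθ : θ ≠ 0 := div_ne_zero hκ (hxi i)
    have hxe : α + κ / θ = x i := by
      rw [hθdef]
      have := hxi i
      field_simp
      ring
    have h1 := ea θ hθ
    have h2 := eb θ hθ
    rw [hxe] at h1 h2
    have h3 : b1.eval θ * (y * θ ^ (g + 1) / κ) = θ ^ m * (b.eval (x i) * y) := by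
      have : b1.eval θ * (y * θ ^ (g + 1) / κ) = (b1.eval θ * θ ^ (g + 1)) * y / κ := by ring
      rw [this, h2]
      field_simp
    rw [h1, h3, ← mul_add, hy, mul_zero]

end Pool.Agent.H85.EV.MOV

namespace Pool.Agent.H85.EV

universe u

theorem mov : Pool.Agent.H13.EV.T_MOV.{u} := MOV.X

end Pool.Agent.H85.EV
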