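import Pool.Agent.H13.EV.Defs

/-!
# MP_6b5a9a_nt, module FAC: factorization of a principal ideal
-/

open Polynomial

namespace Pool.Agent.H85.EV.FAC

open Pool.Agent.H62.HE
open Pool.Agent.H13.EV

universe u

/-- copy of `Pool.Agent.H33.HP.CL.II_mul` -/
theorem II_mul {k : Type u} [Field k] (h2 : (2 : k) ≠ 0) (f u w : k[X]) (h : u ∣ w ^ 2 - f)
    (hc : IsCoprime u w) : II f u w * II f u (-w) = Ideal.span {(⟨u, 0⟩ : HR k f)} := by
  rw [II, II, Ideal.span_pair_mul_span_pair, neg_neg]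
  apply le_antisymm
  · rw [Ideal.span_le]
    obtain ⟨q, hq⟩ := h
    rintro z (rfl | rfl | rfl | rfl)
    · exact Ideal.mem_span_singleton.2 ⟨_, rfl⟩
    · exact Ideal.mem_span_singleton.2 ⟨_, rfl⟩
    · exact Ideal.mem_span_singleton.2 ⟨_, mul_comm _ _⟩
    · refine Ideal.mem_span_singleton.2 ⟨⟨-q, 0⟩, ?_⟩
      ext1
      · simp
        linear_combination -hq
      · simp
  · rw [Ideal.span_singleton_le_iff_mem]
    obtain ⟨a, b, hab⟩ := hc
    have e : (⟨u, 0⟩ : HR k f) = ⟨a, 0⟩ * (⟨u, 0⟩ * ⟨u, 0⟩) +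
        ⟨C 2⁻¹ * b, 0⟩ * (⟨u, 0⟩ * ⟨w, 1⟩) - ⟨C 2⁻¹ * b, 0⟩ * (⟨-w, 1⟩ * ⟨u, 0⟩) := by
      have h2 : (C 2⁻¹ : k[X]) * 2 = 1 := by
        rw [show (2 : k[X]) = C 2 by rfl, ← C_mul, inv_mul_cancel₀ h2, C_1]
      ext1
      · simp
        linear_combination (-u) * hab + (-(b * w * u)) * h2
      · simp
    suffices H : ∀ z : HR k f, z = ⟨u, 0⟩ → z ∈ Ideal.span {(⟨u, 0⟩ : HR k f) * ⟨u, 0⟩,
        ⟨u, 0⟩ * ⟨w, 1⟩, ⟨-w, 1⟩ * ⟨u, 0⟩, ⟨-w, 1⟩ * ⟨w, 1⟩} from H _ rfl
    intro z hz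
    rw [show z = _ from hz.trans e]
    refine sub_mem (add_mem ?_ ?_) ?_
    · exact Ideal.mul_mem_left _ _ (Ideal.subset_span (Or.inl rfl))
    · exact Ideal.mul_mem_left _ _ (Ideal.subset_span (Or.inr (Or.inl rfl)))
    · exact Ideal.mul_mem_left _ _ (Ideal.subset_span (Or.inr (Or.inr (Or.inl rfl))))

section ring

variable {R : Type u} [CommRing R] {I J : Ideal R}

lemma cop1 {z u v : R} (h : z - u ∈ I) (huv : v * u = 1) : IsCoprime (Ideal.span {z}) I := by
  rw [Ideal.isCoprime_iff_exists]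
  refine ⟨v * z, Ideal.mul_mem_left _ _ (Ideal.mem_span_singleton_self _), -(v * (z - u)),
    neg_mem (Ideal.mul_mem_left _ _ h), ?_⟩
  linear_combination huv

lemma mem1 {z z' : R} (h : IsCoprime (Ideal.span {z'}) I) (hz : z * z' ∈ I) : z ∈ I := by
  obtain ⟨r, hr, s, hs, hrs⟩ := Ideal.isCoprime_iff_exists.1 h
  obtain ⟨t, rfl⟩ := Ideal.mem_span_singleton.1 hr
  have : z = t * (z * z') + z * s := by linear_combination -z * hrs
  rw [this]
  exact add_mem (Ideal.mul_mem_left _ _ hz) (Ideal.mul_mem_left _ _ hs)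

lemma cop2 {p q v : R} (hp : p ∈ I) (hq : q ∈ J) (h : v * (p - q) = 1) : IsCoprime I J := by
  rw [Ideal.isCoprime_iff_exists]
  refine ⟨v * p, Ideal.mul_mem_left _ _ hp, -(v * q), neg_mem (Ideal.mul_mem_left _ _ hq), ?_⟩
  linear_combination h

end ring

/-- embedding of the polynomials -/
noncomputable def em {k : Type u} [Field k] (f : k[X]) : k[X] →+* HR k f :=
  algebraMap k[X] (HR k f)

/-- the elements `a + b y` -/
def ab {k : Type u} [Field k] (f a b : k[X]) : HR k f := ⟨a, b⟩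

lemma em_apply {k : Type u} [Field k] (f p : k[X]) : em f p = ⟨p, 0⟩ := by
  rw [em, QuadraticAlgebra.algebraMap_eq]

/-- an element is congruent to its value modulo the ideal of a point -/
lemma sub_val_mem {k : Type u} [Field k] (f A B : k[X]) (x y : k) :
    ab f A B - em f (C (A.eval x + B.eval x * y)) ∈ pt f x y := by
  obtain ⟨A1, hA1⟩ := X_sub_C_dvd_sub_C_eval (a := x) (p := A)
  obtain ⟨B1, hB1⟩ := X_sub_C_dvd_sub_C_eval (a := x) (p := B)
  rw [pt, II, Ideal.mem_span_pair, em_apply, ab]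
  refine ⟨⟨A1, B1⟩, ⟨C (B.eval x), 0⟩, ?_⟩
  ext1
  · simp
    linear_combination -hA1
  · simp
    linear_combination -hB1

lemma xs_mem {k : Type u} [Field k] (f : k[X]) (x y : k) : em f (X - C x) ∈ pt f x y := by
  rw [em_apply]
  exact Ideal.subset_span (Or.inl rfl)

section

variable {k : Type u} [Field k] {f : k[X]} {ι : Type u} [Fintype ι] {x y : ι → k} {M' : ℕ}
  {a b : k[X]} {c : k}

lemma conj_mul (a b : k[X]) : ab f a b * ab f a (-b) = em f (a ^ 2 - f * b ^ 2) := by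
  rw [em_apply, ab, ab]
  ext1
  · simp
    ring
  · simp
    ring

lemma em_C_mul {u v : k} (h : u * v = 1) : em f (C u) * em f (C v) = 1 := by
  rw [← map_mul, ← C_mul, h, C_1, map_one]

/-- one of the two inclusions -/
lemma span_le (h2 : (2 : k) ≠ 0) (hx : Function.Injective x) (hy : ∀ i, y i ≠ 0)
    (hab : a ^ 2 - f * b ^ 2 = C c * (∏ i, (X - C (x i))) ^ M') (hcop : IsCoprime a b)
    (h0 : ∀ i, a.eval (x i) + b.eval (x i) * y i = 0) :
    Ideal.span {ab f a b} ≤ ∏ i, pt f (x i) (y i) ^ M' := by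
  rw [Ideal.prod_eq_iInf_of_pairwise_isCoprime]
  · rw [Ideal.span_singleton_le_iff_mem]
    simp only [Ideal.mem_iInf, Finset.mem_univ, forall_true_left]
    intro i
    -- the conjugate is invertible modulo the ideal
    have hb0 : b.eval (x i) ≠ 0 := by
      intro hb
      have ha : a.eval (x i) = 0 := by
        have := h0 i
        rwa [hb, zero_mul, add_zero] at this
      obtain ⟨s, t, hst⟩ := hcop
      have h7 := congrArg (Polynomial.eval (x i)) hst
      simp [ha, hb] at h7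
    have hδ : a.eval (x i) + (-b).eval (x i) * y i ≠ 0 := by
      have h3 : a.eval (x i) + (-b).eval (x i) * y i = -(2 * (b.eval (x i) * y i)) := by
        rw [eval_neg]
        linear_combination h0 i
      rw [h3]
      exact neg_ne_zero.2 (mul_ne_zero h2 (mul_ne_zero hb0 (hy i)))
    have hco : IsCoprime (Ideal.span {ab f a (-b)}) (pt f (x i) (y i)) :=
      cop1 (sub_val_mem f a (-b) (x i) (y i)) (em_C_mul (inv_mul_cancel₀ hδ))
    refine mem1 (hco.pow_right (n := M')) ?_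
    rw [conj_mul, hab]
    have h5 : (X - C (x i)) ^ M' ∣ C c * (∏ i, (X - C (x i))) ^ M' :=
      (pow_dvd_pow_of_dvd (Finset.dvd_prod_of_mem (fun i => X - C (x i)) (Finset.mem_univ i))
        M').mul_left _
    obtain ⟨q, hq⟩ := h5
    rw [hq, map_mul, map_pow]
    exact Ideal.mul_mem_right _ _ (Ideal.pow_mem_pow (xs_mem f (x i) (y i)) M')
  · intro i _ j _ hij
    have hne : x j - x i ≠ 0 := sub_ne_zero.2 fun h => hij (hx h.symm)
    show IsCoprime (pt f (x i) (y i) ^ M') (pt f (x j) (y j) ^ M')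
    refine IsCoprime.pow (cop2 (v := em f (C (x j - x i)⁻¹)) (xs_mem f (x i) (y i))
      (xs_mem f (x j) (y j)) ?_)
    rw [← map_sub, show (X - C (x i) - (X - C (x j)) : k[X]) = C (x j - x i) by
      rw [C_sub]; ring]
    exact em_C_mul (inv_mul_cancel₀ hne)

end

theorem X : T_FAC.{u} := by
  intro k _ f _ ι _ x y M' a b c h2 hx hy hyf hc hab hcop h0
  show Ideal.span {ab f a b} = ∏ i, pt f (x i) (y i) ^ M'
  apply le_antisymm (span_le h2 hx hy hab hcop h0)
  -- the conjugate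
  have hs : Ideal.span {ab f a (-b)} ≤ ∏ i, pt f (x i) (-y i) ^ M' := by
    refine span_le (c := c) h2 hx (fun i => neg_ne_zero.2 (hy i)) ?_ hcop.neg_right fun i => ?_
    · rw [← hab]; ring
    · rw [eval_neg, neg_mul_neg]
      exact h0 i
  have hpq : ∀ i, pt f (x i) (y i) * pt f (x i) (-y i) =
      Ideal.span {em f (Polynomial.X - C (x i))} := by
    intro i
    rw [em_apply, pt, pt, C_neg]
    refine II_mul h2 f _ _ ?_ ?_
    · rw [dvd_iff_isRoot, IsRoot.def]
      simp [hyf i]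
    · exact ⟨0, C (y i)⁻¹, by rw [zero_mul, zero_add, ← C_mul, inv_mul_cancel₀ (hy i), C_1]⟩
  have hU : (∏ i, (Polynomial.X - C (x i))) ≠ 0 :=
    Finset.prod_ne_zero_iff.2 fun i _ => X_sub_C_ne_zero _
  have hzz : ab f a b * ab f a (-b) ≠ 0 := by
    rw [conj_mul, hab, em_apply]
    intro h
    have h3 := congrArg QuadraticAlgebra.re h
    exact mul_ne_zero (C_ne_zero.2 hc) (pow_ne_zero _ hU) h3
  have hz' : ab f a (-b) ≠ 0 := right_ne_zero_of_mul hzz
  rw [← Ideal.span_singleton_mul_right_mono hz']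
  calc Ideal.span {ab f a (-b)} * ∏ i, pt f (x i) (y i) ^ M'
      ≤ (∏ i, pt f (x i) (-y i) ^ M') * ∏ i, pt f (x i) (y i) ^ M' := Ideal.mul_mono_left hs
    _ = (∏ i, pt f (x i) (y i) * pt f (x i) (-y i)) ^ M' := by
        rw [← Finset.prod_mul_distrib, ← Finset.prod_pow]
        exact Finset.prod_congr rfl fun i _ => by rw [← mul_pow, mul_comm]
    _ = Ideal.span {em f ((∏ i, (Polynomial.X - C (x i))) ^ M')} := by
        rw [Finset.prod_congr rfl fun i _ => hpq i, Ideal.prod_span_singleton,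
          Ideal.span_singleton_pow, map_pow, map_prod]
    _ = Ideal.span {ab f a (-b)} * Ideal.span {ab f a b} := by
        rw [Ideal.span_singleton_mul_span_singleton, mul_comm (ab f a (-b)), conj_mul, hab,
          map_mul]
        have hu : IsUnit (em f (C c)) := (isUnit_C.2 (isUnit_iff_ne_zero.2 hc)).map _
        exact (Ideal.span_singleton_mul_left_unit hu _).symm

end Pool.Agent.H85.EV.FAC

namespace Pool.Agent.H85.EV

universe u

theorem fac : Pool.Agent.H13.EV.T_FAC.{u} := FAC.X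

end Pool.Agent.H85.EV
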